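import Mathlib

set_option autoImplicit false
open Real MeasureTheory Set Filter Topology
open scoped ENNReal

namespace Pool.Agent.Results.MP_346ebc_an.HurewiczLoops

section core

variable {N : Type*} [PseudoMetricSpace N]

/-- geometric sum -/
theorem geom_bd (n : ℕ) : ∀ t : ℝ, 0 < t →
    (∑ j ∈ Finset.range n, (if 2 ^ j * t < 1 then (4 : ℝ) ^ j else 0)) * t ^ 2 ≤
      if t < 1 then (4 - t ^ 2) / 3 else 0 := by
  induction n with
  | zero =>
    intro t ht
    simp only [Finset.range_zero, Finset.sum_empty, zero_mul]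
    split_ifs with h
    · nlinarith
    · exact le_rfl
  | succ n ih =>
    intro t ht
    rw [Finset.sum_range_succ']
    have h1 : ∀ j ∈ Finset.range n, (if 2 ^ (j + 1) * t < 1 then (4 : ℝ) ^ (j + 1) else 0) =
        4 * (if 2 ^ j * (2 * t) < 1 then (4 : ℝ) ^ j else 0) := by
      intro j _
      have : (2 : ℝ) ^ (j + 1) * t = 2 ^ j * (2 * t) := by ring
      rw [this]
      split_ifs
      · ring
      · ring
    rw [Finset.sum_congr rfl h1, ← Finset.mul_sum]
    have h2 := ih (2 * t) (by linarith)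
    simp only [pow_zero, one_mul]
    have h3 : (4 * ∑ j ∈ Finset.range n, (if 2 ^ j * (2 * t) < 1 then (4 : ℝ) ^ j else 0)) * t ^ 2 =
        (∑ j ∈ Finset.range n, (if 2 ^ j * (2 * t) < 1 then (4 : ℝ) ^ j else 0)) * (2 * t) ^ 2 := by
      ring
    rw [add_mul, h3]
    by_cases ht1 : t < 1
    · rw [if_pos ht1, if_pos ht1]
      by_cases ht2 : 2 * t < 1
      · rw [if_pos ht2] at h2
        nlinarith
      · rw [if_neg ht2] at h2
        nlinarith
    · rw [if_neg ht1, if_neg ht1]
      have ht2 : ¬ 2 * t < 1 := by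
        intro h; apply ht1; linarith
      rw [if_neg ht2] at h2
      linarith

theorem geom_tsum (t : ℝ) (ht : 0 < t) :
    (∑' j : ℕ, (if 2 ^ j * t < 1 then ENNReal.ofReal ((4 : ℝ) ^ j) else 0)) ≤
      ENNReal.ofReal (4 / 3 * (1 / t) ^ 2) := by
  rw [ENNReal.tsum_eq_iSup_nat]
  apply iSup_le
  intro n
  have h := geom_bd n t ht
  have h1 : (∑ j ∈ Finset.range n, (if 2 ^ j * t < 1 then ENNReal.ofReal ((4 : ℝ) ^ j) else 0)) =
      ENNReal.ofReal (∑ j ∈ Finset.range n, (if 2 ^ j * t < 1 then (4 : ℝ) ^ j else 0)) := by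
    rw [ENNReal.ofReal_sum_of_nonneg]
    · apply Finset.sum_congr rfl
      intro j _
      split_ifs
      · rfl
      · simp
    · intro j _
      split_ifs
      · positivity
      · exact le_rfl
  rw [h1]
  apply ENNReal.ofReal_le_ofReal
  have h2 : (∑ j ∈ Finset.range n, (if 2 ^ j * t < 1 then (4 : ℝ) ^ j else 0)) * t ^ 2 ≤ 4 / 3 := by
    refine h.trans ?_
    split_ifs
    · nlinarith
    · norm_num
  have h3 : 0 < t ^ 2 := by positivity
  rw [one_div, inv_pow, ← div_eq_mul_inv, le_div_iff₀ h3]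
  exact h2

/-- scaling of the Lebesgue integral -/
theorem lint_scale (F : ℝ → ℝ≥0∞) (hF : Measurable F) (a : ℝ) (ha : 0 < a) :
    ∫⁻ s, F (a * s) = ENNReal.ofReal a⁻¹ * ∫⁻ s, F s := by
  have h := Real.map_volume_mul_left (a := a) ha.ne'
  have h1 : ∫⁻ s, F (a * s) = ∫⁻ s, F s ∂(Measure.map (fun x => a * x) volume) := by
    rw [lintegral_map hF (by fun_prop)]
  rw [h1]
  have h2 : Measure.map (fun x => a * x) (volume : Measure ℝ) = ENNReal.ofReal |a⁻¹| • volume := h
  rw [h2, lintegral_smul_measure, abs_of_pos (inv_pos.mpr ha)]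
  rfl

/-- the abstract averaging estimate: from a pointwise estimate by the dyadic sums to the integral -/
theorem avg_bound (T : ℝ) (hT : 0 < T) (W : ℝ → ℝ≥0∞) (hW : Measurable W) (c A : ℝ) (hA : 0 ≤ A)
    (h : ∀ s ∈ Ioo 0 T, ENNReal.ofReal (T * A) ≤
      ENNReal.ofReal c * (∑' j : ℕ, ENNReal.ofReal ((2 : ℝ) ^ j) * W (s / 2 ^ j)) +
      ENNReal.ofReal c * (∑' j : ℕ, ENNReal.ofReal ((2 : ℝ) ^ j) * W ((T - s) / 2 ^ j))) :
    ENNReal.ofReal A ≤ ENNReal.ofReal (8 / 3 * c) *
      ∫⁻ h in Ioo 0 T, W h * ENNReal.ofReal (1 / h ^ 2) := by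
  set S : ℝ → ℝ≥0∞ := fun s => ∑' j : ℕ, ENNReal.ofReal ((2 : ℝ) ^ j) * W (s / 2 ^ j) with hS
  have hSm : Measurable S := by
    apply Measurable.tsum
    intro j
    exact measurable_const.mul (hW.comp (by fun_prop))
  have h1 : ENNReal.ofReal (T * A) * ENNReal.ofReal T ≤
      2 * ENNReal.ofReal c * ∫⁻ s in Ioo 0 T, S s := by
    have e1 : ∫⁻ s in Ioo 0 T, ENNReal.ofReal (T * A) = ENNReal.ofReal (T * A) * ENNReal.ofReal T := by
      rw [setLIntegral_const, Real.volume_Ioo, sub_zero]
    rw [← e1]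
    have e2 : ∫⁻ s in Ioo 0 T, ENNReal.ofReal (T * A) ≤
        ∫⁻ s in Ioo 0 T, (ENNReal.ofReal c * S s + ENNReal.ofReal c * S (T - s)) := by
      apply setLIntegral_mono' measurableSet_Ioo
      intro s hs
      exact h s hs
    refine e2.trans ?_
    rw [lintegral_add_left (by fun_prop)]
    have e3 : ∫⁻ s in Ioo 0 T, ENNReal.ofReal c * S (T - s) = ∫⁻ s in Ioo 0 T, ENNReal.ofReal c * S s := by
      rw [← lintegral_indicator measurableSet_Ioo, ← lintegral_indicator measurableSet_Ioo]
      rw [← lintegral_sub_left_eq_self (fun s => (Ioo 0 T).indicator (fun s => ENNReal.ofReal c * S s) s) T]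
      apply lintegral_congr
      intro s
      simp only [indicator]
      have : (s ∈ Ioo 0 T) ↔ (T - s ∈ Ioo 0 T) := by
        simp only [mem_Ioo]
        constructor
        · rintro ⟨a, b⟩; constructor <;> linarith
        · rintro ⟨a, b⟩; constructor <;> linarith
      by_cases hs : s ∈ Ioo 0 T
      · rw [if_pos hs, if_pos (this.1 hs)]
      · rw [if_neg hs, if_neg (fun h' => hs (this.2 h'))]
    rw [e3, lintegral_const_mul _ hSm, ← two_mul, mul_assoc]
  have h2 : ∫⁻ s in Ioo 0 T, S s ≤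
      ENNReal.ofReal (4 / 3 * T ^ 2) * ∫⁻ h in Ioo 0 T, W h * ENNReal.ofReal (1 / h ^ 2) := by
    have e1 : ∫⁻ s in Ioo 0 T, S s =
        ∑' j : ℕ, ENNReal.ofReal ((2 : ℝ) ^ j) * ∫⁻ s in Ioo 0 T, W (s / 2 ^ j) := by
      simp only [hS]
      rw [lintegral_tsum]
      · congr 1
        ext j
        exact lintegral_const_mul _
          (hW.comp (by fun_prop : Measurable fun s : ℝ => s / 2 ^ j))
      · intro j
        exact (measurable_const.mul (hW.comp (by fun_prop))).aemeasurable
    have e2 : ∀ j : ℕ, ∫⁻ s in Ioo 0 T, W (s / 2 ^ j) =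
        ENNReal.ofReal ((2 : ℝ) ^ j) * ∫⁻ h in Ioo 0 T, W h * (if 2 ^ j * (h / T) < 1 then 1 else 0) := by
      intro j
      have hp : (0 : ℝ) < 2 ^ j := by positivity
      set G : ℝ → ℝ≥0∞ := (Ioo 0 (T / 2 ^ j)).indicator W with hG
      have hGm : Measurable G := hW.indicator measurableSet_Ioo
      have e3 : ∫⁻ s in Ioo 0 T, W (s / 2 ^ j) = ∫⁻ s, G ((2 ^ j)⁻¹ * s) := by
        rw [← lintegral_indicator measurableSet_Ioo]
        apply lintegral_congr
        intro s
        simp only [hG, indicator]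
        have : s ∈ Ioo 0 T ↔ (2 ^ j)⁻¹ * s ∈ Ioo 0 (T / 2 ^ j) := by
          simp only [mem_Ioo]
          rw [inv_mul_eq_div]
          constructor
          · rintro ⟨a, b⟩
            exact ⟨by positivity, by gcongr⟩
          · rintro ⟨a, b⟩
            constructor
            · by_contra hc
              push Not at hc
              have : s / 2 ^ j ≤ 0 := div_nonpos_of_nonpos_of_nonneg hc hp.le
              linarith
            · exact (div_lt_div_iff_of_pos_right hp).1 b
        by_cases hs : s ∈ Ioo 0 T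
        · rw [if_pos hs, if_pos (this.1 hs), inv_mul_eq_div]
        · rw [if_neg hs, if_neg (fun h' => hs (this.2 h'))]
      rw [e3, lint_scale G hGm _ (by positivity), inv_inv]
      congr 1
      rw [← lintegral_indicator measurableSet_Ioo]
      apply lintegral_congr
      intro s
      simp only [hG, indicator]
      have hiff : s ∈ Ioo 0 (T / 2 ^ j) ↔ (s ∈ Ioo 0 T ∧ 2 ^ j * (s / T) < 1) := by
        simp only [mem_Ioo]
        have e : 2 ^ j * (s / T) < 1 ↔ s < T / 2 ^ j := by
          rw [lt_div_iff₀ hp, ← mul_div_assoc, div_lt_one hT, mul_comm]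
        rw [e]
        constructor
        · rintro ⟨a, b⟩
          refine ⟨⟨a, lt_of_lt_of_le b ?_⟩, b⟩
          apply div_le_self hT.le
          exact one_le_pow₀ (by norm_num)
        · rintro ⟨⟨a, _⟩, c⟩
          exact ⟨a, c⟩
      by_cases hs : s ∈ Ioo 0 (T / 2 ^ j)
      · rw [if_pos hs, if_pos (hiff.1 hs).1, if_pos (hiff.1 hs).2, mul_one]
      · rw [if_neg hs]
        by_cases hs' : s ∈ Ioo 0 T
        · rw [if_pos hs', if_neg (fun h' => hs (hiff.2 ⟨hs', h'⟩)), mul_zero]
        · rw [if_neg hs']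
    rw [e1]
    have e4 : ∀ j : ℕ, ENNReal.ofReal ((2 : ℝ) ^ j) * ∫⁻ s in Ioo 0 T, W (s / 2 ^ j) =
        ∫⁻ h in Ioo 0 T, W h * (if 2 ^ j * (h / T) < 1 then ENNReal.ofReal ((4 : ℝ) ^ j) else 0) := by
      intro j
      rw [e2 j, ← mul_assoc, ← ENNReal.ofReal_mul (by positivity), ← lintegral_const_mul]
      · apply lintegral_congr
        intro s
        split_ifs
        · rw [mul_one, mul_comm (W s)]
          congr 2
          rw [← mul_pow]; norm_num
        · simp
      · apply hW.mul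
        exact Measurable.ite (measurableSet_lt (by fun_prop) measurable_const) measurable_const
          measurable_const
    simp_rw [e4]
    rw [← lintegral_tsum]
    · rw [← lintegral_const_mul]
      · apply setLIntegral_mono' measurableSet_Ioo
        intro s hs
        rw [ENNReal.tsum_mul_left]
        have hs0 : 0 < s := hs.1
        have := geom_tsum (s / T) (by positivity)
        calc W s * ∑' (i : ℕ), (if 2 ^ i * (s / T) < 1 then ENNReal.ofReal ((4 : ℝ) ^ i) else 0)
            ≤ W s * ENNReal.ofReal (4 / 3 * (1 / (s / T)) ^ 2) := by gcongr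
          _ = ENNReal.ofReal (4 / 3 * T ^ 2) * (W s * ENNReal.ofReal (1 / s ^ 2)) := by
            have : (4 / 3 * (1 / (s / T)) ^ 2 : ℝ) = 4 / 3 * T ^ 2 * (1 / s ^ 2) := by
              field_simp
            rw [this, ENNReal.ofReal_mul (by positivity)]
            ring
      · exact hW.mul (by fun_prop)
    · intro j
      apply Measurable.aemeasurable
      apply hW.mul
      exact Measurable.ite (measurableSet_lt (by fun_prop) measurable_const) measurable_const
          measurable_const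
  have h3 : ENNReal.ofReal (T ^ 2) * ENNReal.ofReal A ≤ ENNReal.ofReal (T ^ 2) *
      (ENNReal.ofReal (8 / 3 * c) * ∫⁻ h in Ioo 0 T, W h * ENNReal.ofReal (1 / h ^ 2)) := by
    calc ENNReal.ofReal (T ^ 2) * ENNReal.ofReal A = ENNReal.ofReal (T * A) * ENNReal.ofReal T := by
          rw [← ENNReal.ofReal_mul (by positivity), ← ENNReal.ofReal_mul (by positivity)]
          congr 1; ring
      _ ≤ 2 * ENNReal.ofReal c * ∫⁻ s in Ioo 0 T, S s := h1
      _ ≤ 2 * ENNReal.ofReal c * (ENNReal.ofReal (4 / 3 * T ^ 2) * ∫⁻ h in Ioo 0 T, W h * ENNReal.ofReal (1 / h ^ 2)) := by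
          gcongr
      _ = _ := by
          have e1 : ENNReal.ofReal (8 / 3 * c) = ENNReal.ofReal (8 / 3) * ENNReal.ofReal c :=
            ENNReal.ofReal_mul (by norm_num)
          have e2 : ENNReal.ofReal (4 / 3 * T ^ 2) = ENNReal.ofReal (4 / 3) * ENNReal.ofReal (T ^ 2) :=
            ENNReal.ofReal_mul (by norm_num)
          have e3 : (2 : ℝ≥0∞) * ENNReal.ofReal (4 / 3) = ENNReal.ofReal (8 / 3) := by
            have : (2 : ℝ≥0∞) = ENNReal.ofReal 2 := by norm_num
            rw [this, ← ENNReal.ofReal_mul (by norm_num)]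
            norm_num
          rw [e1, e2, ← e3]
          ring
  have hpos : ENNReal.ofReal (T ^ 2) ≠ 0 := by
    rw [Ne, ENNReal.ofReal_eq_zero, not_le]
    positivity
  exact (ENNReal.mul_le_mul_iff_right hpos ENNReal.ofReal_ne_top).1 h3


/-- a local cocycle with a Lipschitz bound: the increments of the local primitives of a closed
one-form -/
structure LocCocycle (r K : ℝ) (ω : N → N → ℝ) : Prop where
  add : ∀ p q s, dist p q < r → dist q s < r → dist p s < r → ω p q + ω q s = ω p s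
  bound : ∀ p q, dist p q < r → |ω p q| ≤ K * dist p q

section main

variable {r K : ℝ} {ω : N → N → ℝ} (hω : LocCocycle r K ω) (hr : 0 < r)

include hω hr in
theorem om_self (p : N) : ω p p = 0 := by
  have h := hω.add p p p (by rw [dist_self]; exact hr) (by rw [dist_self]; exact hr)
    (by rw [dist_self]; exact hr)
  linarith

include hω hr in
theorem om_symm (p q : N) (h : dist p q < r) : ω p q + ω q p = 0 := by
  rw [hω.add p q p h (by rwa [dist_comm]) (by rw [dist_self]; exact hr), om_self hω hr]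

/-- truncated increments -/
noncomputable def tr (ω : N → N → ℝ) (ε : ℝ) (p q : N) : ℝ := if dist p q < ε then ω p q else 0

/-- indicator of the pairs with large distance -/
noncomputable def bd (g : ℝ → N) (ε h x : ℝ) : ℝ := if ε ≤ dist (g x) (g (x + h)) then 1 else 0

/-- the defect -/
noncomputable def nn (ω : N → N → ℝ) (g : ℝ → N) (φ : ℝ → ℝ) (ε h x : ℝ) : ℝ :=
  φ (x + h) - φ x - tr ω ε (g x) (g (x + h))

theorem bd_nonneg (g : ℝ → N) (ε h x : ℝ) : 0 ≤ bd g ε h x := by
  unfold bd; split_ifs <;> norm_num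

theorem bd_le_one (g : ℝ → N) (ε h x : ℝ) : bd g ε h x ≤ 1 := by
  unfold bd; split_ifs <;> norm_num

include hω in
theorem tr_bound {ε : ℝ} (hK : 0 ≤ K) (hε : 0 < ε) (hεr : ε ≤ r) (p q : N) :
    |tr ω ε p q| ≤ K * ε := by
  unfold tr
  split_ifs with h
  · exact (hω.bound p q (h.trans_le hεr)).trans (by gcongr)
  · simp; positivity

include hω hr in
theorem tr_symm {ε : ℝ} (hεr : ε ≤ r) (p q : N) : tr ω ε p q + tr ω ε q p = 0 := by
  unfold tr
  rw [dist_comm q p]
  split_ifs with h
  · exact om_symm hω hr p q (h.trans_le hεr)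
  · simp

include hω in
theorem defect {ε : ℝ} (hK : 0 ≤ K) (hε : 0 < ε) (hεr : ε ≤ r) (g : ℝ → N) (φ : ℝ → ℝ) (h x : ℝ) :
    |nn ω g φ ε (2 * h) x - nn ω g φ ε h x - nn ω g φ ε h (x + h)| ≤
      3 * K * ε * (bd g ε h x + bd g ε h (x + h) + bd g ε (2 * h) x) := by
  have e : x + h + h = x + 2 * h := by ring
  have e1 : nn ω g φ ε (2 * h) x - nn ω g φ ε h x - nn ω g φ ε h (x + h) =
      tr ω ε (g x) (g (x + h)) + tr ω ε (g (x + h)) (g (x + 2 * h)) -
        tr ω ε (g x) (g (x + 2 * h)) := by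
    unfold nn
    rw [e]
    ring
  rw [e1]
  have b0 := bd_nonneg g ε h x
  have b1 := bd_nonneg g ε h (x + h)
  have b2 := bd_nonneg g ε (2 * h) x
  by_cases hb : dist (g x) (g (x + h)) < ε ∧ dist (g (x + h)) (g (x + 2 * h)) < ε ∧
      dist (g x) (g (x + 2 * h)) < ε
  · obtain ⟨h1, h2, h3⟩ := hb
    unfold tr
    rw [if_pos h1, if_pos h2, if_pos h3]
    have := hω.add _ _ _ (h1.trans_le hεr) (h2.trans_le hεr) (h3.trans_le hεr)
    rw [this, sub_self, abs_zero]
    positivity
  · have hsum : 1 ≤ bd g ε h x + bd g ε h (x + h) + bd g ε (2 * h) x := by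
      by_cases h1 : dist (g x) (g (x + h)) < ε
      · by_cases h2 : dist (g (x + h)) (g (x + 2 * h)) < ε
        · have h3 : ε ≤ dist (g x) (g (x + 2 * h)) := by
            by_contra hc
            push Not at hc
            exact hb ⟨h1, h2, hc⟩
          have : bd g ε (2 * h) x = 1 := by unfold bd; rw [if_pos h3]
          linarith
        · have : bd g ε h (x + h) = 1 := by
            unfold bd; rw [e, if_pos (not_lt.1 h2)]
          linarith
      · have : bd g ε h x = 1 := by unfold bd; rw [if_pos (not_lt.1 h1)]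
        linarith
    have t1 := tr_bound hω hK hε hεr (g x) (g (x + h))
    have t2 := tr_bound hω hK hε hεr (g (x + h)) (g (x + 2 * h))
    have t3 := tr_bound hω hK hε hεr (g x) (g (x + 2 * h))
    have hKε : 0 ≤ K * ε := by positivity
    rw [abs_le] at t1 t2 t3 ⊢
    constructor <;> nlinarith [t1.1, t1.2, t2.1, t2.2, t3.1, t3.2]

section path

variable {g : ℝ → N} {φ : ℝ → ℝ} {T δ Λ ε : ℝ}

/-- measurability in the step `x` of the truncated increments along the path -/
theorem tr_meas (hω : LocCocycle r K ω) (hg : Continuous g) (hφ : Continuous φ) (hδ : 0 < δ)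
    (hloc : ∀ s t, |t - s| < δ → φ t - φ s = ω (g s) (g t))
    (hεr : ε ≤ r) (h : ℝ) :
    Measurable (fun x => tr ω ε (g x) (g (x + h))) := by
  have hO : IsOpen {x : ℝ | dist (g x) (g (x + h)) < ε} :=
    isOpen_lt (by fun_prop) continuous_const
  have hco : ContinuousOn (fun x => ω (g x) (g (x + h))) {x : ℝ | dist (g x) (g (x + h)) < ε} := by
    intro x hx
    apply ContinuousAt.continuousWithinAt
    have hx' : dist (g x) (g (x + h)) < r := lt_of_lt_of_le hx hεr
    have hr : 0 < r := lt_of_le_of_lt dist_nonneg hx'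
    have hev : ∀ᶠ y in 𝓝 x, ω (g y) (g (y + h)) =
        ω (g x) (g (x + h)) + (φ (y + h) - φ (x + h)) - (φ y - φ x) := by
      have c1 : ∀ᶠ y in 𝓝 x, |y - x| < δ := by
        have : Tendsto (fun y => |y - x|) (𝓝 x) (𝓝 |x - x|) :=
          (Continuous.tendsto (by fun_prop) x)
        rw [sub_self, abs_zero] at this
        exact this.eventually (gt_mem_nhds hδ)
      have c2 : ∀ᶠ y in 𝓝 x, dist (g y) (g x) < r := by
        have : Tendsto (fun y => dist (g y) (g x)) (𝓝 x) (𝓝 (dist (g x) (g x))) :=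
          (Continuous.tendsto (by fun_prop) x)
        rw [dist_self] at this
        exact this.eventually (gt_mem_nhds hr)
      have c3 : ∀ᶠ y in 𝓝 x, dist (g (x + h)) (g (y + h)) < r := by
        have : Tendsto (fun y => dist (g (x + h)) (g (y + h))) (𝓝 x)
            (𝓝 (dist (g (x + h)) (g (x + h)))) := (Continuous.tendsto (by fun_prop) x)
        rw [dist_self] at this
        exact this.eventually (gt_mem_nhds hr)
      have c4 : ∀ᶠ y in 𝓝 x, dist (g y) (g (x + h)) < r := by
        have : Tendsto (fun y => dist (g y) (g (x + h))) (𝓝 x)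
            (𝓝 (dist (g x) (g (x + h)))) := (Continuous.tendsto (by fun_prop) x)
        exact this.eventually (gt_mem_nhds hx')
      have c5 : ∀ᶠ y in 𝓝 x, dist (g y) (g (y + h)) < r := by
        have : Tendsto (fun y => dist (g y) (g (y + h))) (𝓝 x)
            (𝓝 (dist (g x) (g (x + h)))) := (Continuous.tendsto (by fun_prop) x)
        exact this.eventually (gt_mem_nhds hx')
      filter_upwards [c1, c2, c3, c4, c5] with y d1 d2 d3 d4 d5
      have a1 := hω.add (g y) (g x) (g (x + h)) d2 hx' d4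
      have a2 := hω.add (g y) (g (x + h)) (g (y + h)) d4 d3 d5
      have a3 := hloc y x (by rw [abs_sub_comm]; exact d1)
      have a4 := hloc (x + h) (y + h) (by
        have : y + h - (x + h) = y - x := by ring
        rw [this]; exact d1)
      linarith
    rw [continuousAt_congr hev]
    fun_prop
  unfold tr
  have : (fun x => if dist (g x) (g (x + h)) < ε then ω (g x) (g (x + h)) else 0) =
      ({x : ℝ | dist (g x) (g (x + h)) < ε}).indicator (fun x => ω (g x) (g (x + h))) := by
    ext x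
    simp [indicator]
  rw [this]
  classical
  rw [← Set.piecewise_eq_indicator]
  exact ContinuousOn.measurable_piecewise hco continuousOn_const hO.measurableSet

theorem bd_meas (hg : Continuous g) (ε h : ℝ) : Measurable (bd g ε h) := by
  unfold bd
  exact Measurable.ite (measurableSet_le measurable_const
    (Continuous.measurable (by fun_prop))) measurable_const measurable_const

theorem bd_int (hg : Continuous g) (ε h u v : ℝ) : IntervalIntegrable (bd g ε h) volume u v := by
  rw [intervalIntegrable_iff, uIoc]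
  apply Integrable.of_bound (C := 1)
  · exact (bd_meas hg ε h).aestronglyMeasurable
  · filter_upwards with x
    rw [Real.norm_eq_abs, abs_of_nonneg (bd_nonneg g ε h x)]
    exact bd_le_one g ε h x

theorem tr_int (hω : LocCocycle r K ω) (hg : Continuous g) (hφ : Continuous φ) (hδ : 0 < δ)
    (hloc : ∀ s t, |t - s| < δ → φ t - φ s = ω (g s) (g t)) (hK : 0 ≤ K) (hε : 0 < ε)
    (hεr : ε ≤ r) (h u v : ℝ) :
    IntervalIntegrable (fun x => tr ω ε (g x) (g (x + h))) volume u v := by
  rw [intervalIntegrable_iff, uIoc]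
  apply Integrable.of_bound (C := K * ε)
  · exact (tr_meas hω hg hφ hδ hloc hεr h).aestronglyMeasurable
  · filter_upwards with x
    rw [Real.norm_eq_abs]
    exact tr_bound hω hK hε hεr _ _

theorem nn_int (hω : LocCocycle r K ω) (hg : Continuous g) (hφ : Continuous φ) (hδ : 0 < δ)
    (hloc : ∀ s t, |t - s| < δ → φ t - φ s = ω (g s) (g t)) (hK : 0 ≤ K) (hε : 0 < ε)
    (hεr : ε ≤ r) (h u v : ℝ) :
    IntervalIntegrable (nn ω g φ ε h) volume u v := by
  unfold nn
  exact ((Continuous.intervalIntegrable (by fun_prop) u v).sub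
    (Continuous.intervalIntegrable (by fun_prop) u v)).sub
    (tr_int hω hg hφ hδ hloc hK hε hεr h u v)

/-- mean of the defect -/
noncomputable def aa (ω : N → N → ℝ) (g : ℝ → N) (φ : ℝ → ℝ) (ε T h : ℝ) : ℝ :=
  ∫ x in (0:ℝ)..T, nn ω g φ ε h x

/-- measure of the bad set -/
noncomputable def ww (g : ℝ → N) (ε T h : ℝ) : ℝ := ∫ x in (0:ℝ)..T, bd g ε h x

theorem ww_nonneg (hT : 0 < T) (ε h : ℝ) : 0 ≤ ww g ε T h :=
  intervalIntegral.integral_nonneg hT.le (fun x _ => bd_nonneg g ε h x)

theorem nn_per (hper : ∀ x, g (x + T) = g x) (hΛ : ∀ x, φ (x + T) - φ x = Λ) (h : ℝ) :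
    Function.Periodic (nn ω g φ ε h) T := by
  intro x
  unfold nn
  have e : x + T + h = (x + h) + T := by ring
  rw [e, hper, hper]
  have h1 := hΛ (x + h)
  have h2 := hΛ x
  linarith

theorem bd_per (hper : ∀ x, g (x + T) = g x) (h : ℝ) : Function.Periodic (bd g ε h) T := by
  intro x
  unfold bd
  have e : x + T + h = (x + h) + T := by ring
  rw [e, hper, hper]

theorem int_shift {F : ℝ → ℝ} (hF : Function.Periodic F T) (h : ℝ) :
    ∫ x in (0:ℝ)..T, F (x + h) = ∫ x in (0:ℝ)..T, F x := by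
  rw [intervalIntegral.integral_comp_add_right]
  have := hF.intervalIntegral_add_eq (0 + h) 0
  rw [zero_add] at this ⊢
  rw [add_comm T h, this, zero_add]

theorem dbl (hω : LocCocycle r K ω) (hg : Continuous g) (hφ : Continuous φ) (hδ : 0 < δ)
    (hloc : ∀ s t, |t - s| < δ → φ t - φ s = ω (g s) (g t)) (hK : 0 ≤ K) (hε : 0 < ε)
    (hεr : ε ≤ r) (hT : 0 < T) (hper : ∀ x, g (x + T) = g x) (hΛ : ∀ x, φ (x + T) - φ x = Λ)
    (h : ℝ) :
    |aa ω g φ ε T (2 * h) - 2 * aa ω g φ ε T h| ≤
      3 * K * ε * (2 * ww g ε T h + ww g ε T (2 * h)) := by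
  have i1 := nn_int hω hg hφ hδ hloc hK hε hεr (2 * h) 0 T
  have i2 := nn_int hω hg hφ hδ hloc hK hε hεr h 0 T
  have i3 : IntervalIntegrable (fun x => nn ω g φ ε h (x + h)) volume 0 T := by
    have := (nn_int hω hg hφ hδ hloc hK hε hεr h (0 + h) (T + h)).comp_add_right h
    simpa using this
  have e1 : aa ω g φ ε T (2 * h) - 2 * aa ω g φ ε T h =
      ∫ x in (0:ℝ)..T, (nn ω g φ ε (2 * h) x - nn ω g φ ε h x - nn ω g φ ε h (x + h)) := by
    rw [intervalIntegral.integral_sub (i1.sub i2) i3, intervalIntegral.integral_sub i1 i2,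
      int_shift (nn_per hper hΛ h) h]
    unfold aa
    ring
  have j1 := bd_int hg ε h 0 T
  have j2 : IntervalIntegrable (fun x => bd g ε h (x + h)) volume 0 T := by
    have := (bd_int hg ε h (0 + h) (T + h)).comp_add_right h
    simpa using this
  have j3 := bd_int hg ε (2 * h) 0 T
  have e2 : 3 * K * ε * (2 * ww g ε T h + ww g ε T (2 * h)) =
      ∫ x in (0:ℝ)..T, 3 * K * ε * (bd g ε h x + bd g ε h (x + h) + bd g ε (2 * h) x) := by
    rw [intervalIntegral.integral_const_mul, intervalIntegral.integral_add (j1.add j2) j3,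
      intervalIntegral.integral_add j1 j2, int_shift (bd_per hper h) h]
    unfold ww
    ring
  rw [e1, e2]
  have := intervalIntegral.norm_integral_le_of_norm_le (μ := volume) hT.le
    (f := fun x => nn ω g φ ε (2 * h) x - nn ω g φ ε h x - nn ω g φ ε h (x + h))
    (g := fun x => 3 * K * ε * (bd g ε h x + bd g ε h (x + h) + bd g ε (2 * h) x))
    (by
      filter_upwards with x _
      rw [Real.norm_eq_abs]
      exact defect hω hK hε hεr g φ h x)
    (((j1.add j2).add j3).const_mul _)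
  rw [Real.norm_eq_abs] at this
  exact this

theorem refl (hω : LocCocycle r K ω) (hr : 0 < r) (hg : Continuous g) (hφ : Continuous φ)
    (hδ : 0 < δ)
    (hloc : ∀ s t, |t - s| < δ → φ t - φ s = ω (g s) (g t)) (hK : 0 ≤ K) (hε : 0 < ε)
    (hεr : ε ≤ r) (hper : ∀ x, g (x + T) = g x) (hΛ : ∀ x, φ (x + T) - φ x = Λ)
    (h : ℝ) : aa ω g φ ε T (T - h) + aa ω g φ ε T h = T * Λ := by
  have i1 := nn_int hω hg hφ hδ hloc hK hε hεr (T - h) 0 T
  have i3 : IntervalIntegrable (fun x => nn ω g φ ε h (x + (T - h))) volume 0 T := by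
    have := (nn_int hω hg hφ hδ hloc hK hε hεr h (0 + (T - h)) (T + (T - h))).comp_add_right (T - h)
    simpa using this
  have e1 : aa ω g φ ε T (T - h) + aa ω g φ ε T h =
      ∫ x in (0:ℝ)..T, (nn ω g φ ε (T - h) x + nn ω g φ ε h (x + (T - h))) := by
    rw [intervalIntegral.integral_add i1 i3, int_shift (nn_per hper hΛ h) (T - h)]
    rfl
  have e2 : ∀ x, nn ω g φ ε (T - h) x + nn ω g φ ε h (x + (T - h)) = Λ := by
    intro x
    unfold nn
    have e : x + (T - h) + h = x + T := by ring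
    rw [e, hper x]
    have h1 := hΛ x
    have h2 := tr_symm hω hr hεr (g x) (g (x + (T - h)))
    linarith
  rw [e1]
  simp_rw [e2]
  rw [intervalIntegral.integral_const, sub_zero, smul_eq_mul]

theorem small (hloc : ∀ s t, |t - s| < δ → φ t - φ s = ω (g s) (g t))
    (hgu : ∀ s t, |t - s| < δ → dist (g s) (g t) < ε) (h : ℝ) (hh : |h| < δ) :
    aa ω g φ ε T h = 0 := by
  unfold aa
  have : ∀ x, nn ω g φ ε h x = 0 := by
    intro x
    unfold nn tr
    have e : x + h - x = h := by ring
    rw [if_pos (hgu x (x + h) (by rw [e]; exact hh)), hloc x (x + h) (by rw [e]; exact hh), sub_self]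
  simp_rw [this]
  simp

theorem chain (hdbl : ∀ h, |aa ω g φ ε T (2 * h) - 2 * aa ω g φ ε T h| ≤
      3 * K * ε * (2 * ww g ε T h + ww g ε T (2 * h))) (J : ℕ) (s : ℝ) :
    |aa ω g φ ε T s| ≤ ∑ j ∈ Finset.range J, 3 * K * ε *
      (2 ^ j * ww g ε T (s / 2 ^ j) + 2 ^ (j + 1) * ww g ε T (s / 2 ^ (j + 1))) +
      2 ^ J * |aa ω g φ ε T (s / 2 ^ J)| := by
  induction J with
  | zero => simp
  | succ J ih =>
    refine ih.trans ?_
    rw [Finset.sum_range_succ]
    have h1 := hdbl (s / 2 ^ (J + 1))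
    have e : 2 * (s / 2 ^ (J + 1)) = s / 2 ^ J := by
      rw [pow_succ]; field_simp
    rw [e] at h1
    have h2 : |aa ω g φ ε T (s / 2 ^ J)| ≤ 2 * |aa ω g φ ε T (s / 2 ^ (J + 1))| +
        3 * K * ε * (2 * ww g ε T (s / 2 ^ (J + 1)) + ww g ε T (s / 2 ^ J)) := by
      have := abs_sub_abs_le_abs_sub (aa ω g φ ε T (s / 2 ^ J)) (2 * aa ω g φ ε T (s / 2 ^ (J + 1)))
      rw [abs_mul, abs_of_pos (by norm_num : (0:ℝ) < 2)] at this
      linarith
    have hp : (0 : ℝ) < 2 ^ J := by positivity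
    have h3 := mul_le_mul_of_nonneg_left h2 hp.le
    have e2 : (2 : ℝ) ^ (J + 1) = 2 * 2 ^ J := by ring
    rw [e2] at h3 ⊢
    nlinarith [h3]

/-- measure of the bad set, as an extended number -/
noncomputable def WW (g : ℝ → N) (ε T h : ℝ) : ℝ≥0∞ :=
  ∫⁻ x in Ioc 0 T, ENNReal.ofReal (bd g ε h x)

theorem ofReal_ww (hg : Continuous g) (hT : 0 < T) (ε h : ℝ) :
    ENNReal.ofReal (ww g ε T h) = WW g ε T h := by
  unfold ww WW
  rw [intervalIntegral.integral_of_le hT.le, ofReal_integral_eq_lintegral_ofReal]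
  · have := bd_int hg ε h 0 T
    rw [intervalIntegrable_iff_integrableOn_Ioc_of_le hT.le] at this
    exact this
  · filter_upwards with x
    exact bd_nonneg g ε h x

theorem WW_meas (hg : Continuous g) (ε : ℝ) : Measurable (WW g ε T) := by
  unfold WW
  apply Measurable.lintegral_prod_right'
    (f := fun p : ℝ × ℝ => ENNReal.ofReal (bd g ε p.1 p.2))
  apply Measurable.ennreal_ofReal
  unfold bd
  exact Measurable.ite (measurableSet_le measurable_const
    (Continuous.measurable (by fun_prop))) measurable_const measurable_const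

theorem aa_bound (hg : Continuous g) (hT : 0 < T) (hK : 0 ≤ K) (hε : 0 < ε) (hδ : 0 < δ)
    (hsmall : ∀ h, |h| < δ → aa ω g φ ε T h = 0)
    (hdbl : ∀ h, |aa ω g φ ε T (2 * h) - 2 * aa ω g φ ε T h| ≤
      3 * K * ε * (2 * ww g ε T h + ww g ε T (2 * h))) (s : ℝ) :
    ENNReal.ofReal |aa ω g φ ε T s| ≤ ENNReal.ofReal (6 * K * ε) *
      ∑' j : ℕ, ENNReal.ofReal ((2 : ℝ) ^ j) * WW g ε T (s / 2 ^ j) := by
  obtain ⟨J, hJ⟩ : ∃ J : ℕ, |s / 2 ^ J| < δ := by
    have h1 : Tendsto (fun J : ℕ => |s| * ((1 / 2 : ℝ)) ^ J) atTop (𝓝 (|s| * 0)) :=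
      (tendsto_pow_atTop_nhds_zero_of_lt_one (by norm_num) (by norm_num)).const_mul _
    rw [mul_zero] at h1
    obtain ⟨J, hJ⟩ := (h1.eventually (gt_mem_nhds hδ)).exists
    refine ⟨J, ?_⟩
    rw [abs_div, abs_of_pos (by positivity : (0:ℝ) < 2 ^ J), div_eq_mul_inv]
    rw [one_div, inv_pow] at hJ
    exact hJ
  have h1 := chain hdbl J s
  rw [hsmall _ hJ, abs_zero, mul_zero, add_zero] at h1
  set A : ℕ → ℝ≥0∞ := fun j => ENNReal.ofReal ((2 : ℝ) ^ j) * WW g ε T (s / 2 ^ j) with hA
  have h2 : ENNReal.ofReal (∑ j ∈ Finset.range J, 3 * K * ε *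
      (2 ^ j * ww g ε T (s / 2 ^ j) + 2 ^ (j + 1) * ww g ε T (s / 2 ^ (j + 1)))) =
      ∑ j ∈ Finset.range J, ENNReal.ofReal (3 * K * ε) * (A j + A (j + 1)) := by
    rw [ENNReal.ofReal_sum_of_nonneg]
    · apply Finset.sum_congr rfl
      intro j _
      have n1 := ww_nonneg (g := g) hT ε (s / 2 ^ j)
      have n2 := ww_nonneg (g := g) hT ε (s / 2 ^ (j + 1))
      rw [ENNReal.ofReal_mul (by positivity : 0 ≤ 3 * K * ε),
        ENNReal.ofReal_add (by positivity) (by positivity),
        ENNReal.ofReal_mul (by positivity : (0:ℝ) ≤ 2 ^ j),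
        ENNReal.ofReal_mul (by positivity : (0:ℝ) ≤ 2 ^ (j + 1)),
        ofReal_ww hg hT, ofReal_ww hg hT]
    · intro j _
      have n1 := ww_nonneg (g := g) hT ε (s / 2 ^ j)
      have n2 := ww_nonneg (g := g) hT ε (s / 2 ^ (j + 1))
      positivity
  calc ENNReal.ofReal |aa ω g φ ε T s| ≤ _ := ENNReal.ofReal_le_ofReal h1
    _ = ∑ j ∈ Finset.range J, ENNReal.ofReal (3 * K * ε) * (A j + A (j + 1)) := h2
    _ = ENNReal.ofReal (3 * K * ε) * (∑ j ∈ Finset.range J, A j + ∑ j ∈ Finset.range J, A (j + 1)) := by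
        rw [← Finset.mul_sum, Finset.sum_add_distrib]
    _ ≤ ENNReal.ofReal (3 * K * ε) * (∑' j, A j + ∑' j, A j) := by
        gcongr
        · exact ENNReal.sum_le_tsum _
        · calc ∑ j ∈ Finset.range J, A (j + 1) ≤ ∑ j ∈ Finset.range (J + 1), A j := by
                rw [Finset.sum_range_succ']
                exact le_self_add
            _ ≤ _ := ENNReal.sum_le_tsum _
    _ = ENNReal.ofReal (6 * K * ε) * ∑' j, A j := by
        rw [← two_mul, ← mul_assoc]
        congr 1
        have : (2 : ℝ≥0∞) = ENNReal.ofReal 2 := by norm_num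
        rw [this, ← ENNReal.ofReal_mul (by positivity)]
        congr 1; ring

theorem core_bound (hω : LocCocycle r K ω) (hr : 0 < r) (hg : Continuous g) (hφ : Continuous φ)
    (hδ : 0 < δ) (hloc : ∀ s t, |t - s| < δ → φ t - φ s = ω (g s) (g t))
    (hgu : ∀ s t, |t - s| < δ → dist (g s) (g t) < ε) (hK : 0 ≤ K) (hε : 0 < ε)
    (hεr : ε ≤ r) (hT : 0 < T) (hper : ∀ x, g (x + T) = g x) (hΛ : ∀ x, φ (x + T) - φ x = Λ) :
    ENNReal.ofReal |Λ| ≤ ENNReal.ofReal (16 * K * ε) *
      ∫⁻ h in Ioo 0 T, WW g ε T h * ENNReal.ofReal (1 / h ^ 2) := by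
  have hsmall := small (T := T) hloc hgu
  have hdbl := dbl hω hg hφ hδ hloc hK hε hεr hT hper hΛ
  have := avg_bound T hT (WW g ε T) (WW_meas hg ε) (6 * K * ε) |Λ| (abs_nonneg _) (by
    intro s hs
    have h1 := refl hω hr hg hφ hδ hloc hK hε hεr hper hΛ s
    have h2 : T * |Λ| ≤ |aa ω g φ ε T s| + |aa ω g φ ε T (T - s)| := by
      have : T * |Λ| = |T * Λ| := by rw [abs_mul, abs_of_pos hT]
      rw [this, ← h1, add_comm]
      exact abs_add_le _ _
    calc ENNReal.ofReal (T * |Λ|) ≤ ENNReal.ofReal (|aa ω g φ ε T s| + |aa ω g φ ε T (T - s)|) :=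
          ENNReal.ofReal_le_ofReal h2
      _ = ENNReal.ofReal |aa ω g φ ε T s| + ENNReal.ofReal |aa ω g φ ε T (T - s)| :=
          ENNReal.ofReal_add (abs_nonneg _) (abs_nonneg _)
      _ ≤ _ := by
          gcongr
          · exact aa_bound hg hT hK hε hδ hsmall hdbl s
          · exact aa_bound hg hT hK hε hδ hsmall hdbl (T - s))
  have e : 8 / 3 * (6 * K * ε) = 16 * K * ε := by ring
  rw [e] at this
  exact this

end path
end main

end core

section form

/-- a function which is locally constant along a preconnected set is constant on it -/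
theorem const_on {X : Type*} [TopologicalSpace X] {W : Set X} (hW : IsPreconnected W) (u : X → ℝ)
    (h : ∀ x ∈ W, ∀ᶠ y in 𝓝 x, u y = u x) {a b : X} (ha : a ∈ W) (hb : b ∈ W) : u a = u b := by
  have h1 := hW.subset_left_of_subset_union (u := interior {y | u y = u b})
    (v := interior {y | u y ≠ u b}) isOpen_interior isOpen_interior
    (by
      rw [Set.disjoint_left]
      intro x hx hx'
      have e1 : x ∈ {y | u y = u b} := interior_subset hx
      have e2 : x ∈ {y | u y ≠ u b} := interior_subset hx'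
      exact e2 e1)
    (by
      intro x hx
      by_cases hxb : u x = u b
      · left
        rw [mem_interior_iff_mem_nhds]
        filter_upwards [h x hx] with y hy
        exact hy.trans hxb
      · right
        rw [mem_interior_iff_mem_nhds]
        filter_upwards [h x hx] with y hy
        intro h'
        exact hxb (hy.symm.trans h'))
    ⟨b, hb, by
      rw [mem_interior_iff_mem_nhds]
      exact h b hb⟩
  have e1 : a ∈ {y | u y = u b} := interior_subset (h1 ha)
  exact e1

/-- A closed one-form on a metric space, given by local primitives: `U` is an open cover, `F i` is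
a locally Lipschitz function on `U i` (the primitive there) and the differences `F i - F j` are
locally constant on `U i ∩ U j`. -/
structure ClosedForm (N : Type*) [PseudoMetricSpace N] where
  /-- the index set of the cover -/
  ι : Type
  /-- the cover -/
  U : ι → Set N
  /-- the primitives -/
  F : ι → N → ℝ
  isOpen : ∀ i, IsOpen (U i)
  cover : ∀ x, ∃ i, x ∈ U i
  lip : ∀ i, ∀ x ∈ U i, ∃ K : NNReal, ∃ t ∈ 𝓝 x, LipschitzOnWith K (F i) t
  compat : ∀ i j, ∀ x ∈ U i ∩ U j, ∀ᶠ y in 𝓝 x, F i y - F j y = F i x - F j x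

/-- `φ` is a primitive of the pull-back of `ω` by the loop `f` (in the angle variable). -/
def IsPrimitive {N : Type*} [PseudoMetricSpace N] (ω : ClosedForm N) (f : C(Circle, N))
    (φ : ℝ → ℝ) : Prop :=
  ∀ θ i, f (Circle.exp θ) ∈ ω.U i → ∀ᶠ t in 𝓝 θ,
    φ t - φ θ = ω.F i (f (Circle.exp t)) - ω.F i (f (Circle.exp θ))

/-- `Λ` is the integral of the pull-back of `ω` by `f` over the circle: `⟨Hur f, ω⟩ = Λ`. -/
def IsPeriod {N : Type*} [PseudoMetricSpace N] (ω : ClosedForm N) (f : C(Circle, N))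
    (Λ : ℝ) : Prop :=
  ∃ φ : ℝ → ℝ, IsPrimitive ω f φ ∧ φ (2 * π) - φ 0 = Λ

/-- the scaled gap potential (in the angle variables on the circle) -/
noncomputable def gapPotential {N : Type*} [PseudoMetricSpace N] (ε : ℝ) (f : C(Circle, N)) :
    ℝ≥0∞ :=
  ∫⁻ x in Ioc 0 (2 * π), ∫⁻ y in Ioc 0 (2 * π),
    if ε ≤ dist (f (Circle.exp y)) (f (Circle.exp x)) then
      ENNReal.ofReal ε * (ENNReal.ofReal (‖(Circle.exp y : ℂ) - (Circle.exp x : ℂ)‖ ^ 2))⁻¹ else 0

theorem exists_cocycle {N : Type*} [PseudoMetricSpace N] [CompactSpace N]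
    [LocallyConnectedSpace N] (ω : ClosedForm N) :
    ∃ r > 0, ∃ K ≥ 0, ∃ om : N → N → ℝ, LocCocycle r K om ∧
      ∀ p, ∃ i, Metric.ball p r ⊆ ω.U i ∧ ∀ q ∈ Metric.ball p r, om p q = ω.F i q - ω.F i p := by
  choose i hi using ω.cover
  choose K t ht hL using fun x => ω.lip (i x) x (hi x)
  set C : N → Set N := fun x => interior (t x) ∩ ω.U (i x) with hC
  have hCo : ∀ x, IsOpen (C x) := fun x => isOpen_interior.inter (ω.isOpen _)
  have hCx : ∀ x, x ∈ C x := fun x => ⟨mem_interior_iff_mem_nhds.2 (ht x), hi x⟩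
  obtain ⟨b, hb⟩ := isCompact_univ.elim_finite_subcover C hCo
    (fun x _ => mem_iUnion.2 ⟨x, hCx x⟩)
  obtain ⟨r1, hr1, h1⟩ := lebesgue_number_lemma_of_metric (isCompact_univ (X := N))
    (c := fun x : b => C x.1) (fun x => hCo _) (by
      intro x hx
      have := hb hx
      simp only [mem_iUnion] at this ⊢
      obtain ⟨y, hy, hxy⟩ := this
      exact ⟨⟨y, hy⟩, hxy⟩)
  have hV : ∀ y : N, ∃ V : Set N, IsOpen V ∧ y ∈ V ∧ IsPreconnected V ∧ V ⊆ Metric.ball y (r1 / 4) := by
    intro y
    obtain ⟨V, hV, hVs⟩ := (LocallyConnectedSpace.open_connected_basis y).mem_iff.1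
      (Metric.ball_mem_nhds y (by positivity : 0 < r1 / 4))
    exact ⟨V, hV.1, hV.2.1, hV.2.2.isPreconnected, hVs⟩
  choose V hVo hVy hVc hVs using hV
  obtain ⟨r2, hr2, h2⟩ := lebesgue_number_lemma_of_metric (isCompact_univ (X := N))
    (c := V) hVo (fun x _ => mem_iUnion.2 ⟨x, hVy x⟩)
  choose x hx using fun p => h1 p (mem_univ p)
  choose y hy using fun p => h2 p (mem_univ p)
  set r := min r2 (r1 / 2) with hr
  have hr0 : 0 < r := lt_min hr2 (by positivity)
  have hrr1 : r ≤ r1 / 2 := min_le_right _ _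
  have hrr2 : r ≤ r2 := min_le_left _ _
  refine ⟨r, hr0, (∑ z ∈ b, K z : NNReal), NNReal.coe_nonneg _,
    fun p q => ω.F (i (x p)) q - ω.F (i (x p)) p, ⟨?_, ?_⟩, ?_⟩
  · intro p q s hpq hqs hps
    set W := V (y q) with hW
    have hWq : ∀ w ∈ W, dist w q < r1 / 2 := by
      intro w hw
      have e1 : dist w (y q) < r1 / 4 := hVs _ hw
      have e2 : dist q (y q) < r1 / 4 := hVs _ (hy q (Metric.mem_ball_self hr2))
      calc dist w q ≤ dist w (y q) + dist (y q) q := dist_triangle _ _ _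
        _ < r1 / 4 + r1 / 4 := by rw [dist_comm (y q) q]; linarith
        _ = r1 / 2 := by ring
    have hu := const_on (hVc (y q)) (fun w => ω.F (i (x p)) w - ω.F (i (x q)) w) (by
      intro w hw
      have e1 := hWq w hw
      have m1 : w ∈ C (x q).1 := hx q (by rw [Metric.mem_ball]; linarith)
      have m2 : w ∈ C (x p).1 := hx p (by
        rw [Metric.mem_ball]
        calc dist w p ≤ dist w q + dist q p := dist_triangle _ _ _
          _ < r1 / 2 + r1 / 2 := by rw [dist_comm q p]; linarith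
          _ = r1 := by ring)
      exact ω.compat _ _ w ⟨m2.2, m1.2⟩)
      (a := s) (b := q) (hy q (by rw [Metric.mem_ball, dist_comm]; linarith))
      (hy q (Metric.mem_ball_self hr2))
    linarith
  · intro p q hpq
    have m1 : q ∈ C (x p).1 := hx p (by rw [Metric.mem_ball, dist_comm]; linarith)
    have m2 : p ∈ C (x p).1 := hx p (Metric.mem_ball_self hr1)
    have := (hL (x p).1).dist_le_mul q (interior_subset m1.1) p (interior_subset m2.1)
    rw [Real.dist_eq, dist_comm q p] at this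
    refine this.trans ?_
    gcongr
    exact Finset.single_le_sum (f := K) (fun _ _ => bot_le) (x p).2
  · intro p
    refine ⟨i (x p).1, ?_, fun q _ => rfl⟩
    intro q hq
    have : q ∈ C (x p).1 := hx p (by rw [Metric.mem_ball] at hq ⊢; linarith)
    exact this.2

theorem norm_exp_le (s t : ℝ) : ‖(Circle.exp s : ℂ) - (Circle.exp t : ℂ)‖ ≤ |s - t| := by
  rw [Circle.coe_exp, Circle.coe_exp]
  have e : Complex.exp (s * Complex.I) - Complex.exp (t * Complex.I) =
      Complex.exp (t * Complex.I) * (Complex.exp (Complex.I * ((s - t : ℝ) : ℂ)) - 1) := by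
    rw [mul_sub, mul_one, ← Complex.exp_add]
    congr 2
    push_cast
    ring
  rw [e, norm_mul, Complex.norm_exp_ofReal_mul_I, one_mul]
  exact Real.norm_exp_I_mul_ofReal_sub_one_le

theorem dist_exp_le (s t : ℝ) : dist (Circle.exp s) (Circle.exp t) ≤ |s - t| := by
  have h0 : dist (Circle.exp s) (Circle.exp t) = ‖(Circle.exp s : ℂ) - (Circle.exp t : ℂ)‖ :=
    Complex.dist_eq _ _
  rw [h0]
  exact norm_exp_le s t

theorem unif {N : Type*} [PseudoMetricSpace N] (f : C(Circle, N)) (ε : ℝ) (hε : 0 < ε) :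
    ∃ δ > 0, ∀ s t : ℝ, |t - s| < δ → dist (f (Circle.exp s)) (f (Circle.exp t)) < ε := by
  have h := CompactSpace.uniformContinuous_of_continuous f.continuous
  obtain ⟨δ, hδ, h⟩ := Metric.uniformContinuous_iff.1 h ε hε
  refine ⟨δ, hδ, fun s t hst => h ?_⟩
  refine (dist_exp_le s t).trans_lt ?_
  rwa [abs_sub_comm]

theorem loc_of_prim {N : Type*} [PseudoMetricSpace N] {ω : ClosedForm N} {r : ℝ}
    {om : N → N → ℝ} (hi : ∀ p, ∃ i, Metric.ball p r ⊆ ω.U i ∧
      ∀ q ∈ Metric.ball p r, om p q = ω.F i q - ω.F i p)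
    {f : C(Circle, N)} {φ : ℝ → ℝ} (hφ : IsPrimitive ω f φ) {δ : ℝ}
    (hδ : ∀ s t : ℝ, |t - s| < δ → dist (f (Circle.exp s)) (f (Circle.exp t)) < r)
    (s t : ℝ) (hst : |t - s| < δ) :
    φ t - φ s = om (f (Circle.exp s)) (f (Circle.exp t)) := by
  obtain ⟨i, h1, h2⟩ := hi (f (Circle.exp s))
  have hball : ∀ x ∈ uIcc s t, f (Circle.exp x) ∈ Metric.ball (f (Circle.exp s)) r := by
    intro x hx
    rw [Metric.mem_ball, dist_comm]
    apply hδ
    exact (abs_sub_left_of_mem_uIcc hx).trans_lt hst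
  have := const_on (isPreconnected_uIcc (a := s) (b := t))
    (fun x => φ x - ω.F i (f (Circle.exp x))) (by
      intro x hx
      filter_upwards [hφ x i (h1 (hball x hx))] with y hy
      linarith) (a := t) (b := s) right_mem_uIcc left_mem_uIcc
  rw [h2 _ (hball t right_mem_uIcc)]
  linarith

theorem prim_of_loc {N : Type*} [PseudoMetricSpace N] {ω : ClosedForm N} {r : ℝ} (hr : 0 < r)
    {om : N → N → ℝ} (hi : ∀ p, ∃ i, Metric.ball p r ⊆ ω.U i ∧
      ∀ q ∈ Metric.ball p r, om p q = ω.F i q - ω.F i p)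
    {f : C(Circle, N)} {φ : ℝ → ℝ}
    (h : ∀ s, ∀ᶠ t in 𝓝 s, φ t - φ s = om (f (Circle.exp s)) (f (Circle.exp t))) :
    IsPrimitive ω f φ := by
  intro θ i hθ
  obtain ⟨j, h1, h2⟩ := hi (f (Circle.exp θ))
  have hc : Tendsto (fun t : ℝ => f (Circle.exp t)) (𝓝 θ) (𝓝 (f (Circle.exp θ))) :=
    (Continuous.tendsto (by fun_prop) θ)
  have hj : f (Circle.exp θ) ∈ ω.U j := h1 (Metric.mem_ball_self hr)
  filter_upwards [h θ, hc.eventually (ω.compat i j _ ⟨hθ, hj⟩),
    hc.eventually (Metric.ball_mem_nhds _ hr)] with t ht1 ht2 ht3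
  rw [ht1, h2 _ ht3]
  linarith

theorem int_sum (c : ℤ → ℝ) : ∃ S : ℤ → ℝ, ∀ n, S (n + 1) = S n + c n := by
  refine ⟨fun n => if 0 ≤ n then ∑ k ∈ Finset.range n.toNat, c k
    else - ∑ k ∈ Finset.range (-n).toNat, c (-(k : ℤ) - 1), ?_⟩
  intro n
  rcases lt_trichotomy n (-1) with h | h | h
  · have h1 : ¬ (0 ≤ n + 1) := by omega
    have h2 : ¬ (0 ≤ n) := by omega
    simp only [if_neg h1, if_neg h2]
    have h3 : (-n).toNat = (-(n + 1)).toNat + 1 := by omega
    rw [h3, Finset.sum_range_succ]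
    have h4 : (-(((-(n + 1)).toNat : ℕ) : ℤ) - 1) = n := by omega
    rw [h4]
    ring
  · subst h
    simp
  · have h1 : (0 ≤ n + 1) := by omega
    have h2 : (0 ≤ n) := by omega
    simp only [if_pos h1, if_pos h2]
    have h3 : (n + 1).toNat = n.toNat + 1 := by omega
    rw [h3, Finset.sum_range_succ]
    have h4 : ((n.toNat : ℕ) : ℤ) = n := by omega
    rw [h4]

theorem exists_prim {N : Type*} [PseudoMetricSpace N] {r K : ℝ} (hr : 0 < r) {om : N → N → ℝ}
    (hom : LocCocycle r K om) (f : C(Circle, N)) :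
    ∃ φ : ℝ → ℝ, ∀ s, ∀ᶠ t in 𝓝 s, φ t - φ s = om (f (Circle.exp s)) (f (Circle.exp t)) := by
  obtain ⟨δ₀, hδ₀, h₀⟩ := unif f r hr
  set δ := δ₀ / 2 with hδd
  have hδ : 0 < δ := by positivity
  have h2 : ∀ s t : ℝ, |t - s| < 2 * δ → dist (f (Circle.exp s)) (f (Circle.exp t)) < r := by
    intro s t hst
    apply h₀
    have : 2 * δ = δ₀ := by rw [hδd]; ring
    linarith
  set g : ℝ → N := fun θ => f (Circle.exp θ) with hg
  obtain ⟨S, hS⟩ := int_sum (fun n : ℤ => om (g (n * δ)) (g ((n + 1) * δ)))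
  set φ : ℝ → ℝ := fun t => S ⌊t / δ⌋ + om (g (⌊t / δ⌋ * δ)) (g t) with hφ
  -- the formula with the lattice point `n δ` holds for all `t` in `[(n - 1) δ, (n + 1) δ)`
  have key : ∀ (n : ℤ) (t : ℝ), (n - 1) * δ ≤ t → t < (n + 1) * δ →
      φ t = S n + om (g (n * δ)) (g t) := by
    intro n t ht1 ht2
    by_cases hn : (n : ℝ) * δ ≤ t
    · have : ⌊t / δ⌋ = n := by
        rw [Int.floor_eq_iff]
        constructor
        · rwa [le_div_iff₀ hδ]
        · rwa [div_lt_iff₀ hδ]
      simp only [hφ]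
      rw [this]
    · push Not at hn
      have : ⌊t / δ⌋ = n - 1 := by
        rw [Int.floor_eq_iff]
        push_cast
        constructor
        · rwa [le_div_iff₀ hδ]
        · rw [sub_add_cancel, div_lt_iff₀ hδ]
          exact hn
      simp only [hφ]
      rw [this]
      have e1 := hS (n - 1)
      push_cast at e1 ⊢
      rw [sub_add_cancel] at e1
      have e2 : ((n : ℝ) - 1 + 1) * δ = n * δ := by ring
      rw [e2] at e1
      rw [e1]
      have e3 := hom.add (g ((n - 1) * δ)) (g (n * δ)) (g t)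
        (h2 _ _ (by
          have : (n : ℝ) * δ - (n - 1) * δ = δ := by ring
          rw [this, abs_of_pos hδ]; linarith))
        (h2 _ _ (by rw [abs_lt]; constructor <;> nlinarith))
        (h2 _ _ (by rw [abs_lt]; constructor <;> nlinarith))
      linarith
  refine ⟨φ, ?_⟩
  intro s
  set n := ⌊s / δ⌋ with hn
  have hs1 : (n : ℝ) * δ ≤ s := by
    rw [← le_div_iff₀ hδ]; exact Int.floor_le _
  have hs2 : s < (n + 1) * δ := by
    rw [← div_lt_iff₀ hδ]; exact Int.lt_floor_add_one _
  have hmem : Ioo ((n - 1) * δ) ((n + 1) * δ) ∈ 𝓝 s :=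
    Ioo_mem_nhds (by nlinarith) hs2
  filter_upwards [hmem] with t ht
  rw [key n t ht.1.le ht.2, key n s (by nlinarith) hs2]
  have hst : |t - s| < 2 * δ := by
    rw [abs_lt]; constructor <;> nlinarith [ht.1, ht.2]
  have e3 := hom.add (g (n * δ)) (g s) (g t)
    (h2 _ _ (by rw [abs_lt]; constructor <;> nlinarith))
    (h2 _ _ hst)
    (h2 _ _ (by rw [abs_lt]; constructor <;> nlinarith [ht.1, ht.2]))
  linarith

theorem existsUnique_period {N : Type*} [PseudoMetricSpace N] [CompactSpace N]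
    [LocallyConnectedSpace N] (ω : ClosedForm N) (f : C(Circle, N)) :
    ∃! Λ : ℝ, IsPeriod ω f Λ := by
  obtain ⟨r, hr, K, hK, om, hom, hi⟩ := exists_cocycle ω
  obtain ⟨φ, hφ⟩ := exists_prim hr hom f
  have hφ' := prim_of_loc hr hi hφ
  refine ⟨φ (2 * π) - φ 0, ⟨φ, hφ', rfl⟩, ?_⟩
  rintro Λ ⟨ψ, hψ, rfl⟩
  have := const_on (isPreconnected_univ (α := ℝ)) (fun x => ψ x - φ x) (by
    intro x _
    obtain ⟨i, hx⟩ := ω.cover (f (Circle.exp x))
    filter_upwards [hφ' x i hx, hψ x i hx] with y h1 h2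
    linarith) (a := 2 * π) (b := 0) (mem_univ _) (mem_univ _)
  linarith

/-- the integral over a period does not change under a shift -/
theorem lint_shift (F : ℝ → ℝ≥0∞) (T : ℝ) (hT : 0 < T) (hF : Function.Periodic F T) (x : ℝ) :
    ∫⁻ h in Ioc 0 T, F (x + h) = ∫⁻ h in Ioc 0 T, F h := by
  have e1 : ∫⁻ h in Ioc 0 T, F (x + h) = ∫⁻ y in Ioc x (x + T), F y := by
    rw [← lintegral_indicator measurableSet_Ioc, ← lintegral_indicator measurableSet_Ioc,
      ← lintegral_add_left_eq_self (fun y => (Ioc x (x + T)).indicator (fun y => F y) y) x]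
    apply lintegral_congr
    intro h
    simp only [indicator]
    have : h ∈ Ioc 0 T ↔ x + h ∈ Ioc x (x + T) := by
      simp only [mem_Ioc]
      constructor
      · rintro ⟨a, b⟩; constructor <;> linarith
      · rintro ⟨a, b⟩; constructor <;> linarith
    by_cases hh : h ∈ Ioc 0 T
    · rw [if_pos hh, if_pos (this.1 hh)]
    · rw [if_neg hh, if_neg (fun h' => hh (this.2 h'))]
  rw [e1]
  have := (isAddFundamentalDomain_Ioc hT x).setLIntegral_eq (isAddFundamentalDomain_Ioc hT 0) F
    hF.map_vadd_zmultiples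
  rw [this, zero_add]

/-- comparison of the integral over the steps with the scaled gap potential -/
theorem compare {N : Type*} [PseudoMetricSpace N] (f : C(Circle, N)) (ε : ℝ) :
    ENNReal.ofReal ε * ∫⁻ h in Ioo 0 (2 * π),
      WW (fun θ => f (Circle.exp θ)) ε (2 * π) h * ENNReal.ofReal (1 / h ^ 2) ≤
      gapPotential ε f := by
  set g : ℝ → N := fun θ => f (Circle.exp θ) with hg
  have hgc : Continuous g := by rw [hg]; fun_prop
  set G : ℝ → ℝ → ℝ≥0∞ := fun x y => if ε ≤ dist (g y) (g x) then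
    ENNReal.ofReal ε * (ENNReal.ofReal (‖(Circle.exp y : ℂ) - (Circle.exp x : ℂ)‖ ^ 2))⁻¹ else 0 with hG
  have hGm : Measurable (fun p : ℝ × ℝ => G p.1 (p.1 + p.2)) := by
    simp only [hG]
    apply Measurable.ite
    · exact measurableSet_le measurable_const (Continuous.measurable (by fun_prop))
    · apply Measurable.const_mul
      apply Measurable.inv
      apply Measurable.ennreal_ofReal
      apply Continuous.measurable
      fun_prop
    · exact measurable_const
  have h1 : ENNReal.ofReal ε * ∫⁻ h in Ioo 0 (2 * π),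
      WW g ε (2 * π) h * ENNReal.ofReal (1 / h ^ 2) ≤
      ∫⁻ h in Ioo 0 (2 * π), ∫⁻ x in Ioc 0 (2 * π), G x (x + h) := by
    have hm : Measurable (fun h : ℝ => WW g ε (2 * π) h * ENNReal.ofReal (1 / h ^ 2)) :=
      (WW_meas hgc ε).mul (by fun_prop)
    rw [← lintegral_const_mul _ hm]
    apply setLIntegral_mono' measurableSet_Ioo
    intro h hh
    unfold WW
    have hm2 : Measurable (fun x : ℝ => ENNReal.ofReal (bd g ε h x) *
        ENNReal.ofReal (1 / h ^ 2)) :=
      (Measurable.ennreal_ofReal (bd_meas hgc ε h)).mul measurable_const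
    rw [← lintegral_mul_const _ (Measurable.ennreal_ofReal (bd_meas hgc ε h)),
      ← lintegral_const_mul _ hm2]
    apply lintegral_mono
    intro x
    simp only [hG, bd]
    rw [dist_comm (g (x + h)) (g x)]
    split_ifs with hb
    · rw [ENNReal.ofReal_one, one_mul]
      gcongr
      rw [one_div, ENNReal.ofReal_inv_of_pos (by have := hh.1; positivity)]
      gcongr
      refine (norm_exp_le (x + h) x).trans ?_
      rw [add_sub_cancel_left, abs_of_pos hh.1]
    · simp
  refine h1.trans ?_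
  have h2 : ∫⁻ h in Ioo 0 (2 * π), ∫⁻ x in Ioc 0 (2 * π), G x (x + h) ≤
      ∫⁻ h in Ioc 0 (2 * π), ∫⁻ x in Ioc 0 (2 * π), G x (x + h) :=
    lintegral_mono_set Ioo_subset_Ioc_self
  refine h2.trans ?_
  rw [lintegral_lintegral_swap]
  · apply le_of_eq
    unfold gapPotential
    apply lintegral_congr
    intro x
    rw [lint_shift (fun y => G x y) (2 * π) (by positivity) _ x]
    intro y
    have e : Circle.exp (y + 2 * π) = Circle.exp y := by
      rw [Circle.exp_add, Circle.exp_two_pi, mul_one]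
    simp only [hG, hg]
    rw [e]
  · apply Measurable.aemeasurable
    exact hGm.comp (by fun_prop : Measurable (fun p : ℝ × ℝ => (p.2, p.1)))

theorem estimate_one {N : Type*} [PseudoMetricSpace N] [CompactSpace N]
    [LocallyConnectedSpace N] (ω : ClosedForm N) :
    ∃ C > 0, ∃ ε₀ > 0, ∀ ε ∈ Ioo 0 ε₀, ∀ f : C(Circle, N), ∀ Λ : ℝ, IsPeriod ω f Λ →
      ENNReal.ofReal |Λ| ≤ ENNReal.ofReal C * gapPotential ε f := by
  obtain ⟨r, hr, K, hK, om, hom, hi⟩ := exists_cocycle ω
  refine ⟨16 * K + 1, by positivity, r, hr, ?_⟩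
  intro ε hε f Λ hΛ
  obtain ⟨φ, hφ, hφΛ⟩ := hΛ
  obtain ⟨δ, hδ, h1⟩ := unif f ε hε.1
  set g : ℝ → N := fun θ => f (Circle.exp θ) with hg
  have hgc : Continuous g := by rw [hg]; fun_prop
  have hloc := loc_of_prim hi hφ (δ := δ) (fun s t hst => (h1 s t hst).trans hε.2)
  have hφc : Continuous φ := by
    rw [Metric.continuous_iff]
    intro s e he
    have hc : ∀ᶠ t in 𝓝 s, dist (g s) (g t) < min r (e / (K + 1)) := by
      have : Tendsto (fun t => dist (g s) (g t)) (𝓝 s) (𝓝 (dist (g s) (g s))) :=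
        (Continuous.tendsto (by fun_prop) s)
      rw [dist_self] at this
      exact this.eventually (gt_mem_nhds (lt_min hr (by positivity)))
    rw [Metric.eventually_nhds_iff] at hc
    obtain ⟨d, hd, hc⟩ := hc
    refine ⟨min d δ, lt_min hd hδ, fun t ht => ?_⟩
    have ht1 := hc (lt_of_lt_of_le ht (min_le_left _ _))
    have ht2 := lt_of_lt_of_le ht (min_le_right _ _)
    rw [Real.dist_eq] at ht2 ⊢
    rw [hloc s t ht2]
    refine (hom.bound _ _ (lt_of_lt_of_le ht1 (min_le_left _ _))).trans_lt ?_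
    have ht3 := lt_of_lt_of_le ht1 (min_le_right _ _)
    rw [lt_div_iff₀ (by positivity)] at ht3
    have : 0 ≤ dist (g s) (g t) := dist_nonneg
    show K * dist (g s) (g t) < e
    nlinarith
  have hper : ∀ x, g (x + 2 * π) = g x := by
    intro x
    simp only [hg]
    rw [Circle.exp_add, Circle.exp_two_pi, mul_one]
  have hΛ : ∀ x, φ (x + 2 * π) - φ x = Λ := by
    intro x
    have := const_on (isPreconnected_univ (α := ℝ)) (fun x => φ (x + 2 * π) - φ x) (by
      intro x _
      have : ∀ᶠ y in 𝓝 x, |y - x| < δ := by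
        have : Tendsto (fun y => |y - x|) (𝓝 x) (𝓝 |x - x|) :=
          (Continuous.tendsto (by fun_prop) x)
        rw [sub_self, abs_zero] at this
        exact this.eventually (gt_mem_nhds hδ)
      filter_upwards [this] with y hy
      have a1 := hloc x y hy
      have a2 := hloc (x + 2 * π) (y + 2 * π) (by
        have : y + 2 * π - (x + 2 * π) = y - x := by ring
        rw [this]; exact hy)
      have b1 := hper x
      have b2 := hper y
      simp only [hg] at b1 b2
      rw [b1, b2] at a2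
      linarith) (a := x) (b := 0) (mem_univ _) (mem_univ _)
    rw [zero_add] at this
    rw [this, hφΛ]
  have := core_bound hom hr hgc hφc hδ hloc (fun s t hst => h1 s t hst) hK hε.1 hε.2.le
    (by positivity : (0:ℝ) < 2 * π) hper hΛ
  refine this.trans ?_
  have hcmp := compare f ε
  calc ENNReal.ofReal (16 * K * ε) * ∫⁻ h in Ioo 0 (2 * π),
        WW g ε (2 * π) h * ENNReal.ofReal (1 / h ^ 2)
      = ENNReal.ofReal (16 * K) * (ENNReal.ofReal ε * ∫⁻ h in Ioo 0 (2 * π),
        WW g ε (2 * π) h * ENNReal.ofReal (1 / h ^ 2)) := by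
        rw [ENNReal.ofReal_mul (by positivity), mul_assoc]
    _ ≤ ENNReal.ofReal (16 * K + 1) * gapPotential ε f := by
        gcongr
        linarith

theorem period_close {N : Type*} [PseudoMetricSpace N] {ω : ClosedForm N} {r K : ℝ} (hr : 0 < r)
    {om : N → N → ℝ} (hom : LocCocycle r K om) (hi : ∀ p, ∃ i, Metric.ball p r ⊆ ω.U i ∧
      ∀ q ∈ Metric.ball p r, om p q = ω.F i q - ω.F i p)
    {f f' : C(Circle, N)} (hff : ∀ x, dist (f x) (f' x) < r / 2) {Λ : ℝ} (h : IsPeriod ω f Λ) :
    IsPeriod ω f' Λ := by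
  obtain ⟨φ, hφ, rfl⟩ := h
  obtain ⟨δ, hδ, h1⟩ := unif f r hr
  have hloc := loc_of_prim hi hφ h1
  refine ⟨fun t => φ t + om (f (Circle.exp t)) (f' (Circle.exp t)), ?_, ?_⟩
  · apply prim_of_loc hr hi
    intro θ
    have c1 : ∀ᶠ t in 𝓝 θ, |t - θ| < δ := by
      have : Tendsto (fun y => |y - θ|) (𝓝 θ) (𝓝 |θ - θ|) := (Continuous.tendsto (by fun_prop) θ)
      rw [sub_self, abs_zero] at this
      exact this.eventually (gt_mem_nhds hδ)
    have c2 : ∀ᶠ t in 𝓝 θ, dist (f (Circle.exp θ)) (f (Circle.exp t)) < r / 2 := by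
      have : Tendsto (fun y => dist (f (Circle.exp θ)) (f (Circle.exp y))) (𝓝 θ)
        (𝓝 (dist (f (Circle.exp θ)) (f (Circle.exp θ)))) := (Continuous.tendsto (by fun_prop) θ)
      rw [dist_self] at this
      exact this.eventually (gt_mem_nhds (by positivity))
    have c3 : ∀ᶠ t in 𝓝 θ, dist (f' (Circle.exp θ)) (f' (Circle.exp t)) < r / 2 := by
      have : Tendsto (fun y => dist (f' (Circle.exp θ)) (f' (Circle.exp y))) (𝓝 θ)
        (𝓝 (dist (f' (Circle.exp θ)) (f' (Circle.exp θ)))) := (Continuous.tendsto (by fun_prop) θ)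
      rw [dist_self] at this
      exact this.eventually (gt_mem_nhds (by positivity))
    filter_upwards [c1, c2, c3] with t d1 d2 d3
    have e0 := hloc θ t d1
    have b1 := hff (Circle.exp t)
    have b2 := hff (Circle.exp θ)
    have b3 : dist (f (Circle.exp θ)) (f' (Circle.exp t)) < r :=
      (dist_triangle _ (f (Circle.exp t)) _).trans_lt (by linarith)
    have e1 := hom.add (f (Circle.exp θ)) (f (Circle.exp t)) (f' (Circle.exp t)) (by linarith)
      (by linarith) b3
    have e2 := hom.add (f (Circle.exp θ)) (f' (Circle.exp θ)) (f' (Circle.exp t)) (by linarith)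
      (by linarith) b3
    linarith
  · have : Circle.exp (2 * π) = Circle.exp 0 := by rw [Circle.exp_two_pi, Circle.exp_zero]
    simp only
    rw [this]
    ring

theorem period_homotopic {N : Type*} [MetricSpace N] [CompactSpace N]
    [LocallyConnectedSpace N] (ω : ClosedForm N) (f₀ f₁ : C(Circle, N))
    (hh : ContinuousMap.Homotopic f₀ f₁) (Λ : ℝ) (h : IsPeriod ω f₀ Λ) : IsPeriod ω f₁ Λ := by
  obtain ⟨r, hr, K, hK, om, hom, hi⟩ := exists_cocycle ω
  obtain ⟨F⟩ := hh
  have hex : ∀ s : unitInterval, ∃ L, IsPeriod ω (F.curry s) L := fun s =>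
    (existsUnique_period ω (F.curry s)).exists
  choose p hp using hex
  have hconst := const_on (isPreconnected_univ (α := unitInterval)) p (by
    intro s _
    have hc : Continuous (fun s => (F.curry s : C(Circle, N))) := F.curry.continuous
    have : ∀ᶠ s' in 𝓝 s, dist (F.curry s) (F.curry s') < r / 2 := by
      have : Tendsto (fun s' => dist (F.curry s) (F.curry s')) (𝓝 s)
          (𝓝 (dist (F.curry s) (F.curry s))) :=
        (Continuous.tendsto (by fun_prop) s)
      rw [dist_self] at this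
      exact this.eventually (gt_mem_nhds (by positivity))
    filter_upwards [this] with s' hs'
    have := period_close hr hom hi (f := F.curry s) (f' := F.curry s')
      (fun x => (ContinuousMap.dist_apply_le_dist x).trans_lt hs') (hp s)
    exact (existsUnique_period ω (F.curry s')).unique (hp s') this)
    (a := 1) (b := 0) (mem_univ _) (mem_univ _)
  have h0 : (F.curry 0 : C(Circle, N)) = f₀ := by
    ext x; exact F.apply_zero x
  have h1 : (F.curry 1 : C(Circle, N)) = f₁ := by
    ext x; exact F.apply_one x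
  have p0 := hp 0
  have p1 := hp 1
  rw [h0] at p0
  rw [h1, hconst] at p1
  rw [(existsUnique_period ω f₀).unique h p0]
  exact p1

end form

/-- **Main result.** `N` is a compact locally connected metric space, for instance a compact
Riemannian manifold with its Riemannian distance. For closed one-forms `ω` on `N` (given by local
Lipschitz primitives) and continuous loops `f : S¹ → N`:
* the integral `Λ = ⟨Hur f, ω⟩` of `f^* ω` exists, is unique and is a homotopy invariant;
* for finitely many closed one-forms (a basis of `H¹` for instance) there are `C, ε₀ > 0` such that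
  for all `ε < ε₀` and all `f` every `|⟨Hur f, ω_k⟩|` is at most `C` times the scaled gap
  potential. -/
theorem result (N : Type*) [MetricSpace N] [CompactSpace N] [LocallyConnectedSpace N] :
    (∀ (ω : ClosedForm N) (f : C(Circle, N)), ∃! Λ : ℝ, IsPeriod ω f Λ) ∧
    (∀ (ω : ClosedForm N) (f₀ f₁ : C(Circle, N)), ContinuousMap.Homotopic f₀ f₁ →
      ∀ Λ : ℝ, IsPeriod ω f₀ Λ → IsPeriod ω f₁ Λ) ∧
    (∀ (b : ℕ) (ω : Fin b → ClosedForm N), ∃ C > 0, ∃ ε₀ > 0, ∀ ε ∈ Ioo 0 ε₀,
      ∀ (f : C(Circle, N)) (Λ : Fin b → ℝ), (∀ k, IsPeriod (ω k) f (Λ k)) →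
        ∀ k, ENNReal.ofReal |Λ k| ≤ ENNReal.ofReal C * gapPotential ε f) := by
  refine ⟨fun ω f => existsUnique_period ω f, fun ω f₀ f₁ hh Λ h =>
    period_homotopic ω f₀ f₁ hh Λ h, ?_⟩
  intro b ω
  choose C hC e he h using fun k => estimate_one (ω k)
  obtain ⟨ε₀, hε₀, hlt⟩ : ∃ ε₀ > 0, ∀ k, ε₀ < e k := by
    have h1 : ∀ᶠ x in 𝓝[>] (0:ℝ), ∀ k, x < e k :=
      eventually_all.2 fun k => by
        filter_upwards [Ioo_mem_nhdsGT (he k)] with x hx
        exact hx.2
    obtain ⟨x, hx1, hx2⟩ := (h1.and self_mem_nhdsWithin).exists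
    exact ⟨x, hx2, hx1⟩
  refine ⟨1 + ∑ k, C k, by have := Finset.sum_nonneg (fun k (_ : k ∈ Finset.univ) => (hC k).le); linarith,
    ε₀, hε₀, ?_⟩
  intro ε hε f Λ hΛ k
  refine (h k ε ⟨hε.1, hε.2.trans (hlt k)⟩ f (Λ k) (hΛ k)).trans ?_
  gcongr
  have := Finset.single_le_sum (f := C) (fun k _ => (hC k).le) (Finset.mem_univ k)
  linarith

end Pool.Agent.Results.MP_346ebc_an.HurewiczLoops
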